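import Mathlib
import Pool.Agent.Helper34.LF.St

set_option autoImplicit false

open Finset Pool.Agent.Helper34.LF

namespace Pool.Agent.Helper8.LF

theorem pUX : StUX := by
  intro N _ X Y hG a b ha hb h1 h2
  have hcard1 : (insert a X).card = X.card + 1 := card_insert_of_notMem ha
  have hcard2 : (insert b Y).card = Y.card + 1 := card_insert_of_notMem hb
  -- second membership: cards of X
  have key : ∀ (p p' c : VA N), p ≠ p' → p ≠ c → p' ≠ c → X = {p, p', c} → p.1 = p'.1 →
      p.1 ≠ c.1 → Blk (insert a X) → False := by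
    intro p p' c _ _ _ hX hpp hpc hB
    obtain ⟨_, hI, _⟩ := hB
    have himg : (insert a X).image Prod.fst = insert a.1 {p.1, c.1} := by
      rw [hX]
      ext t
      simp only [mem_image, mem_insert, mem_singleton]
      constructor
      · rintro ⟨x, hx, rfl⟩
        rcases hx with rfl | rfl | rfl | rfl
        · exact Or.inl rfl
        · exact Or.inr (Or.inl rfl)
        · exact Or.inr (Or.inl hpp.symm)
        · exact Or.inr (Or.inr rfl)
      · rintro (rfl | rfl | rfl)
        · exact ⟨a, Or.inl rfl, rfl⟩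
        · exact ⟨p, Or.inr (Or.inl rfl), rfl⟩
        · exact ⟨c, Or.inr (Or.inr (Or.inr rfl)), rfl⟩
    rw [himg] at hI
    rcases hI with h4 | h1'
    · have h3 : (insert a.1 ({p.1, c.1} : Finset (Fin 4))).card ≤ 3 :=
        (card_insert_le _ _).trans (Nat.add_le_add_right card_le_two 1)
      omega
    · apply hpc
      have hle : (insert a.1 ({p.1, c.1} : Finset (Fin 4))).card ≤ 1 := h1'.le
      exact card_le_one.mp hle _ (by simp) _ (by simp)
  have hcards : X.card = 3 ∧ Y.card = 1 := by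
    have e1 : ((insert a X).card = 4 ∧ Y.card = 1) ∨ ((insert a X).card = 1 ∧ Y.card = 4) ∨
        ((insert a X).card = 3 ∧ Y.card = 2) := by
      rcases h1 with ⟨h, h'⟩ | ⟨h, h'⟩ | ⟨p, p', c, q, q', n1, n2, n3, n4, hX, hY, _⟩
      · exact Or.inl ⟨h.1, h'⟩
      · exact Or.inr (Or.inl ⟨h, h'.1⟩)
      · refine Or.inr (Or.inr ⟨?_, ?_⟩)
        · rw [hX]; exact card_eq_three.mpr ⟨p, p', c, n1, n2, n3, rfl⟩
        · rw [hY]; exact card_pair n4
    have e2 : (X.card = 4 ∧ (insert b Y).card = 1) ∨ (X.card = 1 ∧ (insert b Y).card = 4) ∨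
        (X.card = 3 ∧ (insert b Y).card = 2) := by
      rcases h2 with ⟨h, h'⟩ | ⟨h, h'⟩ | ⟨p, p', c, q, q', n1, n2, n3, n4, hX, hY, _⟩
      · exact Or.inl ⟨h.1, h'⟩
      · exact Or.inr (Or.inl ⟨h, h'.1⟩)
      · refine Or.inr (Or.inr ⟨?_, ?_⟩)
        · rw [hX]; exact card_eq_three.mpr ⟨p, p', c, n1, n2, n3, rfl⟩
        · rw [hY]; exact card_pair n4
    omega
  obtain ⟨hX3, hY1⟩ := hcards
  have hB : Blk (insert a X) := by
    rcases h1 with ⟨h, _⟩ | ⟨h, _⟩ | ⟨p, p', c, q, q', n1, n2, n3, n4, hX, hY, _⟩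
    · exact h
    · omega
    · have : (insert a X).card = 3 := by
        rw [hX]; exact card_eq_three.mpr ⟨p, p', c, n1, n2, n3, rfl⟩
      omega
  rcases h2 with ⟨h, _⟩ | ⟨h, _⟩ | ⟨p, p', c, q, q', n1, n2, n3, n4, hX, hY, hS, hne⟩
  · have := h.1; omega
  · omega
  · refine key p p' c n1 n2 n3 hX hS.1 ?_ hB
    intro hpc
    exact hne (by rw [hpc])

end Pool.Agent.Helper8.LF
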